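import Pool.Agent.Helper82.EN.Basic

set_option autoImplicit false

/-! # ENCODING BY TM, module PATH: paths which do not stay in small windows are steady -/

namespace Pool.Agent.Helper82.EN

theorem path_lip {p : ℕ → ℤ} (h : ∀ t, |p (t + 1) - p t| ≤ 1) {x y : ℕ} (hxy : x ≤ y) :
    p y - p x ≤ (y : ℤ) - x ∧ p x - p y ≤ (y : ℤ) - x := by
  induction y, hxy using Nat.le_induction with
  | base => constructor <;> omega
  | succ y hy ih =>
    have h1 := h y
    rw [abs_le] at h1
    obtain ⟨h2, h3⟩ := h1
    obtain ⟨h4, h5⟩ := ih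
    push_cast
    constructor <;> linarith

/-- one window, upwards -/
theorem path_win {p : ℕ → ℤ} (h : ∀ t, |p (t + 1) - p t| ≤ 1) {d t u v e : ℕ}
    (ht : t ≤ u) (huv : u ≤ v) (he : e + 1 = t + 5 * d) (hv : v ≤ e)
    (hp : 3 * (d : ℤ) ≤ p v - p u) :
    (d : ℤ) + 1 ≤ p e - p t ∧
      ∀ x y : ℕ, t ≤ x → x ≤ y → y ≤ e → p x - p y ≤ 2 * (d : ℤ) - 1 := by
  have h1 := path_lip h ht
  have h2 := path_lip h huv
  have h3 := path_lip h hv
  constructor
  · omega
  · intro x y hx hxy hy
    have h4 := path_lip h hxy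
    rcases le_total x u with hxu | hxu <;> rcases le_total x v with hxv | hxv <;>
      rcases le_total y u with hyu | hyu <;> rcases le_total y v with hyv | hyv
    all_goals
      first
      | (have h5 := path_lip h hxu
         have h6 := path_lip h hxv
         have h7 := path_lip h hyu
         have h8 := path_lip h hyv
         omega)

theorem path_stead {p : ℕ → ℤ} {d a b : ℕ} (hd : 1 ≤ d) (hab : a + 5 * d ≤ b)
    (hw : ∀ t e : ℕ, a ≤ t → e + 1 = t + 5 * d → e < b → (d : ℤ) + 1 ≤ p e - p t ∧
      ∀ x y : ℕ, t ≤ x → x ≤ y → y ≤ e → p x - p y ≤ 2 * (d : ℤ) - 1) :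
    Stead p (3 * d) 1 a b := by
  have key : ∀ k t t' : ℕ, t' - t ≤ k → a ≤ t → t ≤ t' → t' < b →
      (t' : ℤ) - t ≤ 5 * (p t' - p t) + (15 * d - 7) := by
    intro k
    induction k using Nat.strong_induction_on with
    | _ k ih =>
      intro t t' hk hat htt htb
      by_cases hlong : t + 5 * d ≤ t' + 1
      · obtain ⟨e, he⟩ : ∃ e, e + 1 = t + 5 * d := ⟨t + 5 * d - 1, by omega⟩
        have h1 := (hw t e hat he (by omega)).1
        have h2 := ih (t' - e) (by omega) e t' le_rfl (by omega) (by omega) htb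
        omega
      · push Not at hlong
        have h2 : p t - p t' ≤ 2 * (d : ℤ) - 1 := by
          by_cases hb : t + 5 * d ≤ b
          · obtain ⟨e, he⟩ : ∃ e, e + 1 = t + 5 * d := ⟨t + 5 * d - 1, by omega⟩
            exact (hw t e hat he (by omega)).2 t t' le_rfl htt (by omega)
          · obtain ⟨s, hs⟩ : ∃ s, s + 5 * d = b := ⟨b - 5 * d, by omega⟩
            obtain ⟨e, he⟩ : ∃ e, e + 1 = s + 5 * d := ⟨s + 5 * d - 1, by omega⟩
            exact (hw s e (by omega) he (by omega)).2 t t' (by omega) htt (by omega)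
        omega
  intro t t' hat htt htb
  have := key (t' - t) t t' le_rfl hat htt htb
  push_cast
  rw [one_mul]
  omega

theorem st_PATH : ST_PATH := by
  intro p d a b hd hab hLip hout
  have hLipn : ∀ t, |(fun u => -p u) (t + 1) - (fun u => -p u) t| ≤ 1 := by
    intro t
    have h1 := hLip t
    have h2 : -p (t + 1) - -p t = -(p (t + 1) - p t) := by ring
    show |-p (t + 1) - -p t| ≤ 1
    rw [h2, abs_neg]
    exact h1
  -- every window goes up or down
  have hUD : ∀ t e : ℕ, a ≤ t → e + 1 = t + 5 * d → e < b →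
      ((d : ℤ) + 1 ≤ p e - p t ∧
        ∀ x y : ℕ, t ≤ x → x ≤ y → y ≤ e → p x - p y ≤ 2 * (d : ℤ) - 1) ∨
      ((d : ℤ) + 1 ≤ -p e - -p t ∧
        ∀ x y : ℕ, t ≤ x → x ≤ y → y ≤ e → -p x - -p y ≤ 2 * (d : ℤ) - 1) := by
    intro t e hat he heb
    obtain ⟨u₀, hu₀, hmin⟩ := Finset.exists_min_image (Finset.Icc t e) p
      ⟨t, by rw [Finset.mem_Icc]; omega⟩
    rw [Finset.mem_Icc] at hu₀
    obtain ⟨u, hu1, hu2, hu3⟩ := hout t (p u₀) hat (by omega)
    have h1 : p u₀ ≤ p u := hmin u (by rw [Finset.mem_Icc]; omega)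
    have h2 : p u₀ + 3 * d ≤ p u := by
      by_contra hcon
      push Not at hcon
      exact hu3 ⟨h1, hcon⟩
    rcases le_total u₀ u with h3 | h3
    · left
      have h4 : 3 * (d : ℤ) ≤ p u - p u₀ := by linarith
      exact path_win (p := p) hLip hu₀.1 h3 he (by omega) h4
    · right
      have h4 : 3 * (d : ℤ) ≤ (fun u => -p u) u₀ - (fun u => -p u) u := by
        simp only
        linarith
      exact path_win (p := fun u => -p u) hLipn hu1 h3 he hu₀.2 h4
  -- the sign is constant
  have hconst : (∀ t e : ℕ, a ≤ t → e + 1 = t + 5 * d → e < b → (d : ℤ) + 1 ≤ p e - p t) ∨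
      (∀ t e : ℕ, a ≤ t → e + 1 = t + 5 * d → e < b → (d : ℤ) + 1 ≤ -p e - -p t) := by
    obtain ⟨e₀, he₀⟩ : ∃ e, e + 1 = a + 5 * d := ⟨a + 5 * d - 1, by omega⟩
    rcases hUD a e₀ le_rfl he₀ (by omega) with ⟨h0, _⟩ | ⟨h0, _⟩
    · left
      intro t e hat
      induction t, hat using Nat.le_induction generalizing e with
      | base =>
        intro he _
        have : e = e₀ := by omega
        subst this
        exact h0
      | succ t hat ih =>
        intro he heb
        obtain ⟨e', he'⟩ : ∃ e', e = e' + 1 := ⟨e - 1, by omega⟩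
        subst he'
        have h1 := ih e' (by omega) (by omega)
        rcases hUD (t + 1) (e' + 1) (by omega) he heb with ⟨h2, _⟩ | ⟨h2, _⟩
        · exact h2
        · have h3 := abs_le.mp (hLip t)
          have h4 := abs_le.mp (hLip e')
          omega
    · right
      intro t e hat
      induction t, hat using Nat.le_induction generalizing e with
      | base =>
        intro he _
        have : e = e₀ := by omega
        subst this
        exact h0
      | succ t hat ih =>
        intro he heb
        obtain ⟨e', he'⟩ : ∃ e', e = e' + 1 := ⟨e - 1, by omega⟩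
        subst he'
        have h1 := ih e' (by omega) (by omega)
        rcases hUD (t + 1) (e' + 1) (by omega) he heb with ⟨h2, _⟩ | ⟨h2, _⟩
        · have h3 := abs_le.mp (hLip t)
          have h4 := abs_le.mp (hLip e')
          omega
        · exact h2
  rcases hconst with hc | hc
  · refine ⟨1, Or.inl rfl, path_stead hd hab ?_⟩
    intro t e hat he heb
    rcases hUD t e hat he heb with h1 | h1
    · exact h1
    · have := hc t e hat he heb
      have := h1.1
      omega
  · refine ⟨-1, Or.inr rfl, ?_⟩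
    have hS : Stead (fun u => -p u) (3 * d) 1 a b := by
      apply path_stead hd hab
      intro t e hat he heb
      rcases hUD t e hat he heb with h1 | h1
      · have := hc t e hat he heb
        have := h1.1
        omega
      · exact h1
    intro t t' h1 h2 h3
    have h4 := hS t t' h1 h2 h3
    simp only at h4
    have e1 : (-1 : ℤ) * (p t' - p t) = 1 * (-p t' - -p t) := by ring
    rw [e1]
    exact h4

end Pool.Agent.Helper82.EN
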