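import Pool.Agent.Helper82.EN.Basic

set_option autoImplicit false

/-! # ENCODING BY TM, module STEADY: motion during good blocks -/

namespace Pool.Agent.Helper82.EN

theorem steady_tau_succ (P : Pa) (i : ℕ) : P.tau (i + 1) = P.tau i + P.len i := by
  unfold Pa.tau
  rw [Finset.sum_range_succ]

theorem steady_tau_mono (P : Pa) {i j : ℕ} (h : i ≤ j) : P.tau i ≤ P.tau j := by
  unfold Pa.tau
  exact Finset.sum_le_sum_of_subset (Finset.range_subset_range.mpr h)

/-- the stage containing a time -/
theorem steady_stage (P : Pa) (t i₀ i₁ : ℕ) (h0 : P.tau i₀ ≤ t) (h1 : t < P.tau i₁) :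
    ∃ i, i₀ ≤ i ∧ i < i₁ ∧ P.tau i ≤ t ∧ t < P.tau (i + 1) := by
  classical
  have hex : ∃ i, t < P.tau i := ⟨i₁, h1⟩
  have hs := Nat.find_spec hex
  have hmin : ∀ j, j < Nat.find hex → ¬ t < P.tau j := fun j hj => Nat.find_min hex hj
  have hle : Nat.find hex ≤ i₁ := Nat.find_min' hex h1
  obtain ⟨j, hj⟩ : ∃ j, j = Nat.find hex := ⟨_, rfl⟩
  rw [← hj] at hs hmin hle
  have hgt : i₀ < j := by
    by_contra hcon
    push Not at hcon
    have := steady_tau_mono P hcon
    omega
  obtain ⟨i, rfl⟩ : ∃ i, j = i + 1 := ⟨j - 1, by omega⟩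
  refine ⟨i, by omega, by omega, ?_, hs⟩
  have := hmin i (by omega)
  omega

theorem steady_letter (P : Pa) (hD : 0 < P.D) (i x : ℕ) (u : P.Wd) (hu : P.seed i = u) :
    P.letter i x = em (u ⟨x % P.D, Nat.mod_lt _ hD⟩) := by
  unfold Pa.letter
  rw [dif_pos hD, hu]

theorem steady_fin (i : ℕ) :
    (⟨(i + 1) % 3, Nat.mod_lt _ (by norm_num)⟩ : Fin 3) =
      ⟨i % 3, Nat.mod_lt _ (by norm_num)⟩ + 1 := by
  apply Fin.ext
  rw [Fin.val_add]
  simp

theorem st_STEADY (hPATH : ST_PATH) (hBLK : ST_BLK) : ST_STEADY := by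
  intro Q P K Δ n M c hOk hn hRun a b hab hgood
  obtain ⟨hS0, hS1, hS2, hlen, hsw, hseed⟩ := hBLK P K Δ n hOk hn
  have hd := hOk.hd
  have hdD := hOk.hdD
  have hD : 0 < P.D := by omega
  have hLam := hOk.hlam
  have hbet : P.D ≤ P.bet := by unfold Pa.bet; omega
  have ha1 : 1 ≤ a := (hgood a le_rfl hab).1
  have hbN : b ≤ P.N := (hgood b hab le_rfl).2.1
  -- the beginning and the end
  have hSa : P.S n a = n + P.tau (P.nb * (a - 1)) := by
    unfold Pa.S
    rw [if_neg (by omega)]
  have hSb : P.S n (b + 1) = n + P.tau (P.nb * b) := by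
    unfold Pa.S
    rw [if_neg (by omega), Nat.add_sub_cancel]
  have hSmono : ∀ m, a ≤ m → P.S n a ≤ P.S n m := by
    intro m hm
    induction m, hm using Nat.le_induction with
    | base => exact le_rfl
    | succ m hm ih =>
      have := (hS2 m (by omega)).1
      omega
  have hlam4 : 5 * P.d ≤ P.ell 4 := by
    have h1 := (hlen 0).1
    have h2 := (hlen 0).2.2
    omega
  have hlong : P.S n a + 5 * P.d ≤ P.S n (b + 1) := by
    have h1 := hSmono b hab
    have h2 := (hS2 b (by omega)).1
    omega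
  -- the common triple
  have hw : ∀ k, a ≤ k → k ≤ b → P.sw k = P.sw a := by
    intro k hk
    induction k, hk using Nat.le_induction with
    | base => intro _; rfl
    | succ k hk ih =>
      intro hkb
      rw [hsw k (by omega) (hgood k hk (by omega)).2.2.2]
      exact ih (by omega)
  have hGen := (hgood a le_rfl hab).2.2.1
  obtain ⟨w, hwdef⟩ : ∃ w, w = P.sw a := ⟨_, rfl⟩
  rw [← hwdef] at hGen
  have hseedw : ∀ i, P.nb * (a - 1) ≤ i → i < P.nb * b →
      P.seed i = w ⟨i % 3, Nat.mod_lt _ (by norm_num)⟩ := by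
    intro i hi1 hi2
    have hnb : 0 < P.nb := by unfold Pa.nb; omega
    have e1 : a - 1 ≤ i / P.nb := by
      rw [Nat.le_div_iff_mul_le hnb, mul_comm]
      exact hi1
    have e2 : i / P.nb < b := by
      rw [Nat.div_lt_iff_lt_mul hnb, mul_comm]
      exact hi2
    rw [hseed i, hw (i / P.nb + 1) (by omega) (by omega), hwdef]
  have hNst : P.nb * b ≤ P.Nst := by
    unfold Pa.Nst
    exact Nat.mul_le_mul_left _ hbN
  apply hPATH (fun t => (c t).p) P.d (P.S n a) (P.S n (b + 1)) hd hlong
  · intro t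
    simp only [hRun.step]
    exact abs_step M (c t)
  intro t l ht1 ht2
  by_contra hcon
  push Not at hcon
  -- the window is contained in one or two stages
  obtain ⟨t', ht'⟩ : ∃ t', t = n + t' := ⟨t - n, by omega⟩
  subst ht'
  obtain ⟨i, hi0, hi1, hi2, hi3⟩ := steady_stage P t' (P.nb * (a - 1)) (P.nb * b) (by omega)
    (by omega)
  have hEb1 : P.Eb1 M (fun x => M.out (c (n + t' + x))) := by
    refine ⟨c (n + t'), l, ?_, ?_⟩
    · intro x hx
      rw [← run_of_step M hRun.step]
      exact hcon (n + t' + x) (by omega) (by omega)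
    · intro x
      rw [← run_of_step M hRun.step]
  have hseedi := hseedw i hi0 hi1
  have htau := steady_tau_succ P i
  by_cases hcase : t' + 5 * P.d ≤ P.tau (i + 1)
  · -- one stage
    apply hGen.g1 ⟨i % 3, Nat.mod_lt _ (by norm_num)⟩ ((t' - P.tau i) % P.D) (Nat.mod_lt _ hD)
    left
    have : P.cyc (w ⟨i % 3, Nat.mod_lt _ (by norm_num)⟩) ((t' - P.tau i) % P.D) =
        (fun x : Fin (5 * P.d) => M.out (c (n + t' + x))) := by
      funext x
      unfold Pa.cyc
      rw [dif_pos hD]
      have hx := x.2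
      have e1 : n + t' + (x : ℕ) = n + P.tau i + (t' - P.tau i + x) := by omega
      rw [e1, hRun.outp i (by omega) _ (by omega), steady_letter P hD i _ _ hseedi]
      congr 2
      apply Fin.ext
      simp only
      rw [Nat.add_mod_mod, add_comm]
    rw [this]
    exact hEb1
  · -- two stages
    push Not at hcase
    have hlen1 := (hlen (i + 1)).1
    have htau2 := steady_tau_succ P (i + 1)
    have hi4 : i + 1 < P.nb * b := by
      by_contra hcon2
      push Not at hcon2
      have := steady_tau_mono P hcon2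
      omega
    obtain ⟨x, hx⟩ : ∃ x, x = P.tau (i + 1) - t' := ⟨_, rfl⟩
    have hseedi1 := hseedw (i + 1) (by omega) hi4
    rw [steady_fin] at hseedi1
    apply hGen.g1' ⟨i % 3, Nat.mod_lt _ (by norm_num)⟩ x (by omega)
    left
    have : P.jun (w ⟨i % 3, Nat.mod_lt _ (by norm_num)⟩)
        (w (⟨i % 3, Nat.mod_lt _ (by norm_num)⟩ + 1)) x =
        (fun y : Fin (5 * P.d) => M.out (c (n + t' + y))) := by
      funext y
      unfold Pa.jun
      rw [dif_pos hD]
      have hy := y.2
      split_ifs with hyx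
      · have e1 : n + t' + (y : ℕ) = n + P.tau i + (P.len i - x + y) := by omega
        rw [e1, hRun.outp i (by omega) _ (by omega), steady_letter P hD i _ _ hseedi]
        congr 2
        apply Fin.ext
        simp only
        obtain ⟨q, hq⟩ := (hlen i).2.1
        have hlen0 := (hlen i).1
        have hq1 : 1 ≤ q := by
          rcases Nat.eq_zero_or_pos q with h | h
          · subst h; omega
          · exact h
        obtain ⟨q', rfl⟩ : ∃ q', q = q' + 1 := ⟨q - 1, by omega⟩
        rw [Nat.mul_succ] at hq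
        have e2 : P.len i - x + y = (P.D - x + y) + P.D * q' := by omega
        rw [e2, Nat.add_mul_mod_self_left]
      · have e1 : n + t' + (y : ℕ) = n + P.tau (i + 1) + (y - x) := by omega
        rw [e1, hRun.outp (i + 1) (by omega) _ (by omega), steady_letter P hD (i + 1) _ _ hseedi1]
    rw [this]
    exact hEb1

end Pool.Agent.Helper82.EN
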